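import Pool.Agent.K9h38.CF.LocData

/-!
# The values `j² + j + 1` of a quadratic form with a class of square value
-/

set_option autoImplicit false

namespace Pool.Agent.K9h38.CF

open Pool.Agent.N801.CF Finset

/-- not divisible by a high power -/
theorem not_dvd_mul {p : ℕ} (hp : p.Prime) {K : ℕ} {x w : ℤ} (hx : ¬ (p : ℤ) ^ K ∣ x)
    (hw : ¬ (p : ℤ) ^ 2 ∣ w) : ¬ (p : ℤ) ^ (K + 1) ∣ x * w := by
  have hpp := Nat.prime_iff_prime_int.1 hp
  intro h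
  by_cases hpw : (p : ℤ) ∣ w
  · obtain ⟨w', rfl⟩ := hpw
    have hw' : ¬ (p : ℤ) ∣ w' := by
      rintro ⟨t, rfl⟩
      exact hw ⟨t, by ring⟩
    have h1 : (p : ℤ) ^ K ∣ x * w' := by
      have hp0 : (p : ℤ) ≠ 0 := by exact_mod_cast hp.ne_zero
      obtain ⟨c, hc⟩ := h
      refine ⟨c, mul_left_cancel₀ hp0 ?_⟩
      rw [pow_succ] at hc
      linear_combination hc
    exact hx (hpp.pow_dvd_of_dvd_mul_right K hw' h1)
  · have h1 := hpp.pow_dvd_of_dvd_mul_right (K + 1) hpw h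
    exact hx ((pow_dvd_pow _ (Nat.le_succ K)).trans h1)

/-- two quadratic polynomials modulo a prime -/
theorem two_quad {p : ℕ} (hp : p.Prime) (h2 : p ≠ 2) {a b c d e : ℤ} (ha : ¬ (p : ℤ) ∣ a)
    (hd : ¬ (p : ℤ) ∣ d) : ∃ s t : ℤ, (p : ℤ) ∣ a * s ^ 2 + b * s + c + (d * t ^ 2 + e * t) := by
  have : Fact p.Prime := ⟨hp⟩
  have ha' : (a : ZMod p) ≠ 0 := fun h => ha ((ZMod.intCast_zmod_eq_zero_iff_dvd _ p).1 h)
  have hd' : (d : ZMod p) ≠ 0 := fun h => hd ((ZMod.intCast_zmod_eq_zero_iff_dvd _ p).1 h)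
  have hodd : Fintype.card (ZMod p) % 2 = 1 := by
    rw [ZMod.card]
    rcases hp.eq_two_or_odd with h | h
    · exact absurd h h2
    · exact h
  obtain ⟨x, y, hxy⟩ := FiniteField.exists_root_sum_quadratic
    (f := Polynomial.C (a : ZMod p) * Polynomial.X ^ 2 + Polynomial.C (b : ZMod p) * Polynomial.X +
      Polynomial.C (c : ZMod p))
    (g := Polynomial.C (d : ZMod p) * Polynomial.X ^ 2 + Polynomial.C (e : ZMod p) * Polynomial.X +
      Polynomial.C (0 : ZMod p))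
    (Polynomial.degree_quadratic ha') (Polynomial.degree_quadratic hd') hodd
  obtain ⟨s, hs⟩ := ZMod.intCast_surjective x
  obtain ⟨t, ht⟩ := ZMod.intCast_surjective y
  refine ⟨s, t, ?_⟩
  rw [← ZMod.intCast_zmod_eq_zero_iff_dvd]
  push_cast
  rw [hs, ht]
  simp at hxy
  linear_combination hxy

/-- a prime number in an arithmetic progression, after division by the common divisor -/
theorem dir_prime (n0 D : ℤ) (hD : D ≠ 0) (B : ℕ) : ∃ (g t : ℤ) (ℓ : ℕ), g ≠ 0 ∧ g ∣ n0 ∧ g ∣ D ∧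
    ℓ.Prime ∧ B < ℓ ∧ n0 + D * t = g * ℓ := by
  obtain ⟨m, hm0, r', D', hcop, hr, hD'⟩ : ∃ m : ℤ, m ≠ 0 ∧ ∃ r' D' : ℤ,
      IsCoprime r' D' ∧ n0 = m * r' ∧ D = m * D' := by
    have hg : (Int.gcd n0 D : ℤ) ≠ 0 := by
      have : Int.gcd n0 D ≠ 0 := fun h0 => hD (Int.eq_zero_of_gcd_eq_zero_right h0)
      exact_mod_cast this
    obtain ⟨r', hr'⟩ := Int.gcd_dvd_left n0 D
    obtain ⟨D', hD'⟩ := Int.gcd_dvd_right n0 D
    refine ⟨(Int.gcd n0 D : ℤ), hg, r', D', ?_, hr', hD'⟩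
    refine ⟨Int.gcdA n0 D, Int.gcdB n0 D, ?_⟩
    apply mul_left_cancel₀ hg
    have hb := Int.gcd_eq_gcd_ab n0 D
    calc (Int.gcd n0 D : ℤ) * (Int.gcdA n0 D * r' + Int.gcdB n0 D * D')
        = ((Int.gcd n0 D : ℤ) * r') * Int.gcdA n0 D
          + ((Int.gcd n0 D : ℤ) * D') * Int.gcdB n0 D := by ring
      _ = n0 * Int.gcdA n0 D + D * Int.gcdB n0 D := by rw [← hr', ← hD']
      _ = (Int.gcd n0 D : ℤ) * 1 := by rw [← hb, mul_one]
  have hD'0 : D' ≠ 0 := by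
    rintro rfl
    exact hD (by rw [hD', mul_zero])
  have : NeZero D'.natAbs := ⟨Int.natAbs_ne_zero.2 hD'0⟩
  have hunit : IsUnit ((r' : ℤ) : ZMod D'.natAbs) := by
    have h1 : IsCoprime r' ((D'.natAbs : ℕ) : ℤ) :=
      IsCoprime.of_isCoprime_of_dvd_right hcop (Int.natAbs_dvd.2 dvd_rfl)
    exact (ZMod.coe_int_isUnit_iff_isCoprime r' _).2 h1.symm
  obtain ⟨ℓ, hℓgt, hℓ, hℓs⟩ := Nat.forall_exists_prime_gt_and_eq_mod hunit B
  obtain ⟨t, ht⟩ : D' ∣ (ℓ : ℤ) - r' := by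
    refine (Int.dvd_natAbs.2 dvd_rfl : D' ∣ ((D'.natAbs : ℕ) : ℤ)).trans ?_
    rw [← ZMod.intCast_zmod_eq_zero_iff_dvd]
    push_cast
    rw [hℓs, sub_self]
  refine ⟨m, t, ℓ, hm0, ⟨r', hr⟩, ⟨D', hD'⟩, hℓ, hℓgt, ?_⟩
  rw [hr, hD']
  linear_combination -m * ht

/-- **Values `j² + j + 1`.** Let the integral quadratic form take the value `k² ≠ 0` at `v1`, let
`y2`, `y3` be anisotropic vectors such that `v1`, `y2`, `y3` are orthogonal, and let the form take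
values which are locally primitive norms, for the primes dividing `2 k`. Then the form takes a
value `j² + j + 1`. -/
theorem core_iso {M : Type*} [AddCommGroup M] (Q : QF M) {v1 y2 y3 : M} {k : ℤ} (hk : k ≠ 0)
    (h1 : Q.f v1 = k ^ 2) (h12 : Q.b v1 y2 = 0) (h13 : Q.b v1 y3 = 0) (h23 : Q.b y2 y3 = 0)
    (hy2 : Q.f y2 ≠ 0) (hy3 : Q.f y3 ≠ 0)
    (hloc : ∀ p : ℕ, p.Prime → p % 3 ≠ 1 → (p : ℤ) ∣ 2 * k → ∃ v, Good p (Q.f v)) :
    ∃ (v : M) (j : ℤ), Q.f v = j ^ 2 + j + 1 := by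
  classical
  have h2k : 2 * k ≠ 0 := mul_ne_zero two_ne_zero hk
  set S : Finset ℕ := (2 * k).natAbs.primeFactors with hSdef
  have hSp : ∀ p ∈ S, p.Prime := fun p hp => Nat.prime_of_mem_primeFactors hp
  have hSd : ∀ p ∈ S, (p : ℤ) ∣ 2 * k := fun p hp =>
    Int.natCast_dvd.2 (Nat.dvd_of_mem_primeFactors hp)
  have hS' : ∀ p : ℕ, p.Prime → (p : ℤ) ∣ 2 * k → p ∈ S := fun p hp h =>
    Nat.mem_primeFactors.2 ⟨hp, Int.natCast_dvd.1 h, Int.natAbs_ne_zero.2 h2k⟩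
  -- local data
  have hf0 : Q.f 0 = 0 := by
    have := Q.f_smul 0 0
    simpa using this
  have hdata : ∀ p ∈ S, ∃ V : M, ∀ L, 2 ≤ L → ∃ a b : ℤ, (p : ℤ) ^ L ∣ nm a b - Q.f V ∧
      ¬ (p : ℤ) ∣ b ∧ ¬ (p : ℤ) ^ 2 ∣ 2 * a + b := by
    intro p hp
    by_cases h3 : p % 3 = 1
    · refine ⟨0, fun L _ => ?_⟩
      rw [hf0]
      exact loc_split (hSp p hp) h3 L
    · obtain ⟨V, hV⟩ := hloc p (hSp p hp) h3 (hSd p hp)
      exact ⟨V, fun L hL => loc_inert (hSp p hp) h3 hV L hL⟩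
  choose! V hV using hdata
  -- exponents
  obtain ⟨K, hK⟩ : ∃ K : ℕ, ∀ p ∈ S, ¬ (p : ℤ) ^ K ∣ 2 * k := by
    refine ⟨(2 * k).natAbs, fun p hp hd => ?_⟩
    have h1 := Int.natAbs_dvd_natAbs.2 hd
    rw [Int.natAbs_pow, Int.natAbs_natCast] at h1
    have h2 := Nat.le_of_dvd (Int.natAbs_pos.2 h2k) h1
    have h4 : (2 * k).natAbs < p ^ (2 * k).natAbs := Nat.lt_pow_self (hSp p hp).one_lt
    omega
  set L := K + 2 with hL
  -- local solutions
  have hsol : ∀ p ∈ S, ∃ (u : M) (r : ℤ), (p : ℤ) ^ L ∣ r ^ 2 - r + 1 - Q.f u ∧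
      ¬ (p : ℤ) ^ (K + 1) ∣ Q.b v1 u + k * (2 * r - 1) := by
    intro p hp
    have hpr := hSp p hp
    have hpp := Nat.prime_iff_prime_int.1 hpr
    obtain ⟨a, b, e1, e2, e3⟩ := hV p hp L (by omega)
    obtain ⟨c, d, hcd⟩ : IsCoprime b ((p : ℤ) ^ L) :=
      (((Prime.coprime_iff_not_dvd hpp).2 e2).symm).pow_right
    have hpc : ¬ (p : ℤ) ∣ c := by
      intro h
      apply hpp.not_isUnit
      refine isUnit_of_dvd_one ?_
      rw [← hcd]
      exact dvd_add (h.mul_right _) ((dvd_pow_self _ (by omega)).mul_left _)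
    have hval : (p : ℤ) ^ L ∣ nm (c * a) 1 - c ^ 2 * Q.f (V p) := by
      have : nm (c * a) 1 - c ^ 2 * Q.f (V p) = c ^ 2 * (nm a b - Q.f (V p)) +
          (p : ℤ) ^ L * (d * (c * a + 1 + c * b)) := by
        unfold nm
        linear_combination (c * a + 1 + c * b) * (-1) * hcd
      rw [this]
      exact dvd_add (e1.mul_left _) (dvd_mul_right _ _)
    have hw : ¬ (p : ℤ) ^ 2 ∣ 2 * (c * a) + 1 := by
      intro h
      apply e3
      have h1 : (p : ℤ) ^ 2 ∣ (2 * a + b) * c := by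
        have : (2 * a + b) * c = (2 * (c * a) + 1) - (p : ℤ) ^ L * d := by
          linear_combination hcd
        rw [this]
        exact dvd_sub h ((pow_dvd_pow _ (by omega)).mul_right _)
      exact hpp.pow_dvd_of_dvd_mul_right 2 hpc h1
    have hmain := not_dvd_mul hpr (hK p hp) hw
    by_contra hcon
    push Not at hcon
    have c1 := hcon (c • V p) (-(c * a)) (by
      rw [Q.f_smul]
      have : (-(c * a)) ^ 2 - -(c * a) + 1 - c ^ 2 * Q.f (V p) =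
          nm (c * a) 1 - c ^ 2 * Q.f (V p) := by unfold nm; ring
      rw [this]
      exact hval)
    have c2 := hcon (c • V p) (1 + c * a) (by
      rw [Q.f_smul]
      have : (1 + c * a) ^ 2 - (1 + c * a) + 1 - c ^ 2 * Q.f (V p) =
          nm (c * a) 1 - c ^ 2 * Q.f (V p) := by unfold nm; ring
      rw [this]
      exact hval)
    apply hmain
    have := dvd_sub c2 c1
    have e : Q.b v1 (c • V p) + k * (2 * (1 + c * a) - 1) -
        (Q.b v1 (c • V p) + k * (2 * -(c * a) - 1)) = 2 * k * (2 * (c * a) + 1) := by ring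
    rwa [e] at this
  choose! U R hUR using hsol
  -- simultaneous approximation
  obtain ⟨x1, hx1⟩ := crt S hSp L U
  obtain ⟨r1, hr1⟩ := crt S hSp L R
  set P : ℤ := ∏ p ∈ S, (p : ℤ) ^ L with hP
  have hP0 : P ≠ 0 := prod_ne_zero_iff.2 fun p hp => pow_ne_zero _ (by
    exact_mod_cast (hSp p hp).ne_zero)
  have hPS : ∀ p ∈ S, (p : ℤ) ^ L ∣ P := fun p hp => dvd_prod_of_mem _ hp
  have hPF : P ∣ r1 ^ 2 - r1 + 1 - Q.f x1 := by
    obtain ⟨y, hy⟩ := div_prod S hSp (fun _ => L) (r1 ^ 2 - r1 + 1 - Q.f x1) (by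
      intro p hp
      obtain ⟨z, hz⟩ := hx1 p hp
      obtain ⟨w, hw⟩ := hr1 p hp
      obtain ⟨y, hy⟩ := (hUR p hp).1
      rw [smul_eq_mul] at hw
      refine ⟨y + w * (2 * R p - 1) + (p : ℤ) ^ L * w ^ 2 - Q.b (U p) z - (p : ℤ) ^ L * Q.f z, ?_⟩
      rw [smul_eq_mul, hw, hz, Q.f_add, Q.f_smul, Q.b_smul']
      linear_combination hy)
    rw [smul_eq_mul] at hy
    exact ⟨y, hy⟩
  set n0 : ℤ := Q.b v1 x1 + k * (2 * r1 - 1) with hn0
  have hn0S : ∀ p ∈ S, ¬ (p : ℤ) ^ (K + 1) ∣ n0 := by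
    intro p hp h
    apply (hUR p hp).2
    obtain ⟨z, hz⟩ := hx1 p hp
    obtain ⟨w, hw⟩ := hr1 p hp
    rw [smul_eq_mul] at hw
    have : Q.b v1 (U p) + k * (2 * R p - 1) = n0 - (p : ℤ) ^ L * (Q.b v1 z + 2 * k * w) := by
      rw [hn0, hw, hz, Q.b_add', Q.b_smul']
      ring
    rw [this]
    exact dvd_sub h ((pow_dvd_pow _ (by omega)).mul_right _)
  obtain ⟨g, t, ℓ, hg0, hgn, hgD, hℓ, hℓB, hval⟩ := dir_prime n0 (2 * k * P)
    (mul_ne_zero h2k hP0) (2 + P.natAbs + (Q.f y2).natAbs + (Q.f y3).natAbs)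
  have hℓp := Nat.prime_iff_prime_int.1 hℓ
  have hsmall : ∀ z : ℤ, z ≠ 0 → z.natAbs < ℓ → ¬ (ℓ : ℤ) ∣ z := by
    intro z hz hlt hd
    have h1 := Nat.le_of_dvd (Int.natAbs_pos.2 hz) (Int.natCast_dvd.1 hd)
    omega
  have hℓP := hsmall P hP0 (by omega)
  have hℓ2 := hsmall _ hy2 (by omega)
  have hℓ3 := hsmall _ hy3 (by omega)
  -- `g` divides `P`
  have hgP : g ∣ P := by
    rw [← Int.natAbs_dvd_natAbs, Nat.dvd_iff_prime_pow_dvd_dvd]
    intro p e hp he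
    have hgi : ((p : ℤ)) ^ e ∣ g := by
      have : ((p ^ e : ℕ) : ℤ) ∣ g := Int.natCast_dvd.2 he
      exact_mod_cast this
    by_cases he0 : e = 0
    · rw [he0, pow_zero]
      exact one_dvd _
    have hpg : (p : ℤ) ∣ g := (dvd_pow_self _ he0).trans hgi
    have hpS : p ∈ S := by
      have hpp := Nat.prime_iff_prime_int.1 hp
      rcases hpp.dvd_or_dvd (hpg.trans hgD) with h | h
      · exact hS' p hp h
      · obtain ⟨q, hq, hdq⟩ := (Prime.dvd_finsetProd_iff hpp _).1 h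
        have h1 := hpp.dvd_of_dvd_pow hdq
        have h2 : p ∣ q := by exact_mod_cast h1
        rw [(Nat.prime_dvd_prime_iff_eq hp (hSp q hq)).1 h2]
        exact hq
    have heK : e ≤ K := by
      by_contra hcon
      push Not at hcon
      exact hn0S p hpS (((pow_dvd_pow _ hcon).trans hgi).trans hgn)
    have h1 : (p : ℤ) ^ e ∣ P := (pow_dvd_pow _ (by omega)).trans (hPS p hpS)
    have h2 : ((p ^ e : ℕ) : ℤ) ∣ P := by exact_mod_cast h1
    exact Int.natCast_dvd.1 h2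
  -- the correction
  set r : ℤ := r1 + P * t with hr
  obtain ⟨s2, s3, hs⟩ := two_quad hℓ (by omega) (a := -(P ^ 2 * Q.f y2)) (b := -(P * Q.b x1 y2))
    (c := r ^ 2 - r + 1 - Q.f x1) (d := -(P ^ 2 * Q.f y3)) (e := -(P * Q.b x1 y3))
    (by
      rw [dvd_neg]
      intro h
      rcases hℓp.dvd_or_dvd h with h | h
      · exact hℓP (hℓp.dvd_of_dvd_pow h)
      · exact hℓ2 h)
    (by
      rw [dvd_neg]
      intro h
      rcases hℓp.dvd_or_dvd h with h | h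
      · exact hℓP (hℓp.dvd_of_dvd_pow h)
      · exact hℓ3 h)
  set u : M := x1 + (P * s2) • y2 + (P * s3) • y3 with hu
  have hbu : Q.b v1 u = Q.b v1 x1 := by
    rw [hu, Q.b_add', Q.b_add', Q.b_smul', Q.b_smul', h12, h13]
    ring
  have hfu : Q.f u = Q.f x1 + P * s2 * Q.b x1 y2 + P ^ 2 * s2 ^ 2 * Q.f y2
      + P * s3 * Q.b x1 y3 + P ^ 2 * s3 ^ 2 * Q.f y3 := by
    rw [hu, Q.f_add, Q.f_add, Q.f_smul, Q.f_smul, Q.b_add, Q.b_smul', Q.b_smul', Q.b_smul,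
      Q.b_smul', h23]
    ring
  have hn : Q.b v1 u + k * (2 * r - 1) = g * ℓ := by
    rw [hbu, ← hval, hn0, hr]
    ring
  have hFℓ : (ℓ : ℤ) ∣ r ^ 2 - r + 1 - Q.f u := by
    have : r ^ 2 - r + 1 - Q.f u = -(P ^ 2 * Q.f y2) * s2 ^ 2 + -(P * Q.b x1 y2) * s2 +
        (r ^ 2 - r + 1 - Q.f x1) + (-(P ^ 2 * Q.f y3) * s3 ^ 2 + -(P * Q.b x1 y3) * s3) := by
      rw [hfu]
      ring
    rw [this]
    exact hs
  have hFP : P ∣ r ^ 2 - r + 1 - Q.f u := by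
    have : r ^ 2 - r + 1 - Q.f u = (r1 ^ 2 - r1 + 1 - Q.f x1) + P * (t * (2 * r1 - 1) + P * t ^ 2
        - s2 * Q.b x1 y2 - P * s2 ^ 2 * Q.f y2 - s3 * Q.b x1 y3 - P * s3 ^ 2 * Q.f y3) := by
      rw [hfu, hr]
      ring
    rw [this]
    exact dvd_add hPF (dvd_mul_right _ _)
  have hcop : IsCoprime (ℓ : ℤ) g :=
    (Prime.coprime_iff_not_dvd hℓp).2 fun h => hℓP (h.trans hgP)
  obtain ⟨x, hx⟩ : g * ℓ ∣ r ^ 2 - r + 1 - Q.f u :=
    hcop.symm.mul_dvd (hgP.trans hFP) hFℓ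
  refine ⟨x • v1 + u, k * x - r, ?_⟩
  rw [Q.f_add, Q.f_smul, Q.b_smul, h1]
  linear_combination x * hn - hx

end Pool.Agent.K9h38.CF
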