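import Pool.Agent.N801.CF.Crt

/-!
# Local data for isotropic vectors
-/

set_option autoImplicit false

namespace Pool.Agent.K9h38.CF

open Pool.Agent.N801.CF

/-- lifting to all powers, with congruences -/
theorem lift_all' {p : ℕ} (hp : p.Prime) {n : ℤ} {a b : ℤ} (h : (p : ℤ) ∣ nm a b - n)
    (hs : IsCoprime (2 * a + b) (p : ℤ) ∨ IsCoprime (a + 2 * b) (p : ℤ)) (L : ℕ) :
    ∃ a' b' : ℤ, (p : ℤ) ^ L ∣ nm a' b' - n ∧ (p : ℤ) ∣ a' - a ∧ (p : ℤ) ∣ b' - b := by
  have key : ∀ L : ℕ, ∃ a' b' : ℤ, (p : ℤ) ^ (L + 1) ∣ nm a' b' - n ∧ (p : ℤ) ∣ a' - a ∧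
      (p : ℤ) ∣ b' - b := by
    intro L
    induction L with
    | zero => exact ⟨a, b, by simpa using h, by simp, by simp⟩
    | succ L ih =>
      obtain ⟨a', b', h1, ⟨s, hs1⟩, ⟨t, ht1⟩⟩ := ih
      have hs' : IsCoprime (2 * a' + b') (p : ℤ) ∨ IsCoprime (a' + 2 * b') (p : ℤ) := by
        rcases hs with h2 | h2
        · left
          have : 2 * a' + b' = 2 * a + b + (p : ℤ) * (2 * s + t) := by
            linear_combination 2 * hs1 + ht1
          rw [this]
          exact h2.add_mul_left_left _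
        · right
          have : a' + 2 * b' = a + 2 * b + (p : ℤ) * (s + 2 * t) := by
            linear_combination hs1 + 2 * ht1
          rw [this]
          exact h2.add_mul_left_left _
      obtain ⟨a'', b'', h3, h4, h5⟩ := lift hp (by omega) h1 hs'
      refine ⟨a'', b'', h3, ?_, ?_⟩
      · have : a'' - a = (a'' - a') + (a' - a) := by ring
        rw [this]
        exact dvd_add h4 ⟨s, hs1⟩
      · have : b'' - b = (b'' - b') + (b' - b) := by ring
        rw [this]
        exact dvd_add h5 ⟨t, ht1⟩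
  obtain ⟨a', b', h1, h2, h3⟩ := key L
  exact ⟨a', b', (pow_dvd_pow _ (Nat.le_succ L)).trans h1, h2, h3⟩

theorem nm_comm (a b : ℤ) : nm a b = nm b a := by unfold nm; ring

theorem zmod3 : ∀ a b : ZMod 3, a ^ 2 + a * b + b ^ 2 = 1 →
    2 * a + b ≠ 0 ∧ 2 * b + a ≠ 0 ∧ (a ≠ 0 ∨ b ≠ 0) := by decide

theorem zmod9 : ∀ a b : ZMod 9, a ^ 2 + a * b + b ^ 2 = 3 →
    3 * b ≠ 0 ∧ 3 * a ≠ 0 ∧ (2 * a + b ≠ 0 ∨ 2 * b + a ≠ 0) := by decide

/-- local data at the inert primes and at three -/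
theorem loc_inert {p : ℕ} (hp : p.Prime) (h3 : p % 3 ≠ 1) {n : ℤ} (hn : Good p n) (L : ℕ)
    (hL : 2 ≤ L) : ∃ a b : ℤ, (p : ℤ) ^ L ∣ nm a b - n ∧ ¬ (p : ℤ) ∣ b ∧
      ¬ (p : ℤ) ^ 2 ∣ 2 * a + b := by
  obtain ⟨a, b, hab⟩ := local_rep hp h3 hn L
  have hab' : (p : ℤ) ^ L ∣ nm b a - n := by rw [nm_comm]; exact hab
  suffices h : (¬ (p : ℤ) ∣ b ∧ ¬ (p : ℤ) ^ 2 ∣ 2 * a + b) ∨
      (¬ (p : ℤ) ∣ a ∧ ¬ (p : ℤ) ^ 2 ∣ 2 * b + a) by
    rcases h with ⟨h1, h2⟩ | ⟨h1, h2⟩
    · exact ⟨a, b, hab, h1, h2⟩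
    · exact ⟨b, a, hab', h1, h2⟩
  have hpp := Nat.prime_iff_prime_int.1 hp
  have hp2 : (p : ℤ) ^ 2 ∣ nm a b - n := (pow_dvd_pow _ hL).trans hab
  have hp1 : (p : ℤ) ∣ nm a b - n := (dvd_pow_self _ two_ne_zero).trans hp2
  by_cases hp3 : p = 3
  · subst hp3
    rcases hn.1 rfl with h | h
    · have e : ((a : ZMod 3)) ^ 2 + a * b + (b : ZMod 3) ^ 2 = 1 := by
        have h1 : ((nm a b - n : ℤ) : ZMod 3) = 0 := (ZMod.intCast_zmod_eq_zero_iff_dvd _ 3).2 hp1
        have h2 : ((n - 1 : ℤ) : ZMod 3) = 0 := (ZMod.intCast_zmod_eq_zero_iff_dvd _ 3).2 (by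
          push_cast; omega)
        unfold nm at h1
        push_cast at h1 h2
        linear_combination h1 + h2
      obtain ⟨z1, z2, z3⟩ := zmod3 _ _ e
      have w1 : ¬ ((3 : ℕ) : ℤ) ∣ 2 * a + b := by
        intro hd
        apply z1
        have := (ZMod.intCast_zmod_eq_zero_iff_dvd _ 3).2 hd
        push_cast at this
        exact this
      have w2 : ¬ ((3 : ℕ) : ℤ) ∣ 2 * b + a := by
        intro hd
        apply z2
        have := (ZMod.intCast_zmod_eq_zero_iff_dvd _ 3).2 hd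
        push_cast at this
        exact this
      have w3 : ¬ ((3 : ℕ) : ℤ) ^ 2 ∣ 2 * a + b := fun h => w1 ((dvd_pow_self _ two_ne_zero).trans h)
      have w4 : ¬ ((3 : ℕ) : ℤ) ^ 2 ∣ 2 * b + a := fun h => w2 ((dvd_pow_self _ two_ne_zero).trans h)
      rcases z3 with z | z
      · right
        refine ⟨fun hd => z ?_, w4⟩
        exact (ZMod.intCast_zmod_eq_zero_iff_dvd _ 3).2 hd
      · left
        refine ⟨fun hd => z ?_, w3⟩
        exact (ZMod.intCast_zmod_eq_zero_iff_dvd _ 3).2 hd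
    · have e : ((a : ZMod 9)) ^ 2 + a * b + (b : ZMod 9) ^ 2 = 3 := by
        have h1 : ((nm a b - n : ℤ) : ZMod 9) = 0 := (ZMod.intCast_zmod_eq_zero_iff_dvd _ 9).2 (by
          norm_num at hp2
          exact_mod_cast hp2)
        have h2 : ((n - 3 : ℤ) : ZMod 9) = 0 := (ZMod.intCast_zmod_eq_zero_iff_dvd _ 9).2 (by
          push_cast; omega)
        unfold nm at h1
        push_cast at h1 h2
        linear_combination h1 + h2
      obtain ⟨z1, z2, z3⟩ := zmod9 _ _ e
      have w1 : ¬ ((3 : ℕ) : ℤ) ∣ b := by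
        intro hd
        apply z1
        have hd9 : ((9 : ℕ) : ℤ) ∣ 3 * b := by
          push_cast at hd ⊢
          omega
        have := (ZMod.intCast_zmod_eq_zero_iff_dvd _ 9).2 hd9
        push_cast at this
        exact this
      have w2 : ¬ ((3 : ℕ) : ℤ) ∣ a := by
        intro hd
        apply z2
        have hd9 : ((9 : ℕ) : ℤ) ∣ 3 * a := by
          push_cast at hd ⊢
          omega
        have := (ZMod.intCast_zmod_eq_zero_iff_dvd _ 9).2 hd9
        push_cast at this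
        exact this
      rcases z3 with z | z
      · left
        refine ⟨w1, fun hd => z ?_⟩
        have := (ZMod.intCast_zmod_eq_zero_iff_dvd (2 * a + b) 9).2 (by
          norm_num at hd
          exact_mod_cast hd)
        push_cast at this
        exact this
      · right
        refine ⟨w2, fun hd => z ?_⟩
        have := (ZMod.intCast_zmod_eq_zero_iff_dvd (2 * b + a) 9).2 (by
          norm_num at hd
          exact_mod_cast hd)
        push_cast at this
        exact this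
  · have hn0 := hn.2 hp3
    have hboth : ¬ ((p : ℤ) ∣ a ∧ (p : ℤ) ∣ b) := by
      rintro ⟨⟨s, rfl⟩, ⟨t, rfl⟩⟩
      apply hn0
      have : n = nm (p * s) (p * t) - (nm (p * s) (p * t) - n) := by ring
      rw [this]
      refine dvd_sub ?_ hp1
      unfold nm
      exact ⟨p * s ^ 2 + p * s * t + p * t ^ 2, by ring⟩
    have hp3' : ¬ (p : ℤ) ∣ 3 := by
      intro h
      have h' : p ∣ 3 := by exact_mod_cast h
      exact hp3 ((Nat.prime_dvd_prime_iff_eq hp Nat.prime_three).1 h')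
    by_cases hb : (p : ℤ) ∣ b
    · right
      have ha : ¬ (p : ℤ) ∣ a := fun ha => hboth ⟨ha, hb⟩
      refine ⟨ha, fun h => ha ?_⟩
      have h1 : (p : ℤ) ∣ 2 * b + a := (dvd_pow_self _ two_ne_zero).trans h
      have : a = (2 * b + a) - 2 * b := by ring
      rw [this]
      exact dvd_sub h1 (hb.mul_left _)
    · by_cases h2 : (p : ℤ) ^ 2 ∣ 2 * a + b
      · have h1 : (p : ℤ) ∣ 2 * a + b := (dvd_pow_self _ two_ne_zero).trans h2
        right
        constructor
        · intro ha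
          apply hb
          have : b = (2 * a + b) - 2 * a := by ring
          rw [this]
          exact dvd_sub h1 (ha.mul_left _)
        · intro h
          have h4 : (p : ℤ) ∣ 2 * b + a := (dvd_pow_self _ two_ne_zero).trans h
          have h5 : (p : ℤ) ∣ 3 * b := by
            have : 3 * b = 2 * (2 * b + a) - (2 * a + b) := by ring
            rw [this]
            exact dvd_sub (h4.mul_left _) h1
          rcases hpp.dvd_or_dvd h5 with h6 | h6
          · exact hp3' h6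
          · exact hb h6
      · left
        exact ⟨hb, h2⟩

/-- local data at the split primes -/
theorem loc_split {p : ℕ} (hp : p.Prime) (h1 : p % 3 = 1) (L : ℕ) :
    ∃ a b : ℤ, (p : ℤ) ^ L ∣ nm a b - 0 ∧ ¬ (p : ℤ) ∣ b ∧ ¬ (p : ℤ) ^ 2 ∣ 2 * a + b := by
  have : Fact p.Prime := ⟨hp⟩
  have hpp := Nat.prime_iff_prime_int.1 hp
  have : Fact (Nat.Prime 3) := ⟨Nat.prime_three⟩
  obtain ⟨x, hx⟩ := exists_prime_orderOf_dvd_card (G := (ZMod p)ˣ) 3 (by
    rw [ZMod.card_units_eq_totient, Nat.totient_prime hp]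
    omega)
  have hx3 : (x : ZMod p) ^ 3 = 1 := by
    have h0 := pow_orderOf_eq_one x
    rw [hx] at h0
    have h1 := congrArg Units.val h0
    rwa [Units.val_pow_eq_pow_val, Units.val_one] at h1
  have hx1 : (x : ZMod p) ≠ 1 := by
    intro h
    have : x = 1 := Units.ext h
    rw [this, orderOf_one] at hx
    norm_num at hx
  have hx0 : (x : ZMod p) ^ 2 + x + 1 = 0 := by
    have : ((x : ZMod p) - 1) * ((x : ZMod p) ^ 2 + x + 1) = 0 := by linear_combination hx3
    exact (mul_eq_zero.1 this).resolve_left (sub_ne_zero.2 hx1)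
  obtain ⟨a, ha⟩ := ZMod.intCast_surjective (x : ZMod p)
  have hbase : (p : ℤ) ∣ nm a 1 - 0 := by
    rw [← ZMod.intCast_zmod_eq_zero_iff_dvd]
    unfold nm
    push_cast
    rw [ha]
    linear_combination hx0
  have hu : ¬ (p : ℤ) ∣ 2 * a + 1 := by
    intro h
    have h3 : (p : ℤ) ∣ 3 := by
      have : (3 : ℤ) = 4 * (nm a 1 - 0) - (2 * a + 1) * (2 * a + 1) := by unfold nm; ring
      rw [this]
      exact dvd_sub (hbase.mul_left _) (h.mul_left _)
    have h' : p ∣ 3 := by exact_mod_cast h3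
    rw [(Nat.prime_dvd_prime_iff_eq hp Nat.prime_three).1 h'] at h1
    norm_num at h1
  obtain ⟨a', b', h2, ⟨s, hs⟩, ⟨t, ht⟩⟩ := lift_all' hp hbase
    (Or.inl ((Prime.coprime_iff_not_dvd hpp).2 hu).symm) L
  refine ⟨a', b', h2, ?_, ?_⟩
  · intro h
    apply hpp.not_isUnit
    refine isUnit_of_dvd_one ?_
    have : (1 : ℤ) = b' - p * t := by linear_combination -ht
    rw [this]
    exact dvd_sub h (dvd_mul_right _ _)
  · intro h
    apply hu
    have h5 : (p : ℤ) ∣ 2 * a' + b' := (dvd_pow_self _ two_ne_zero).trans h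
    have : 2 * a + 1 = 2 * a' + b' - p * (2 * s + t) := by linear_combination -2 * hs - ht
    rw [this]
    exact dvd_sub h5 (dvd_mul_right _ _)

end Pool.Agent.K9h38.CF
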