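import Pool.Agent.K9h38.CF.Iso
import Pool.Agent.N801.CF.Main1

/-!
# Hilbert squares and associated K3 surfaces: large rank
-/

set_option autoImplicit false

namespace Pool.Agent.K9h38.CF

open Pool.Agent.Y95.Q Pool.Agent.Y95.Q.H4 Pool.Agent.X328.CF Pool.Agent.N801.CF Module

variable {X : CubicFourfold} {H : H4 X}

/-- from a value `2 n² + 2 n + 2` to a saturated class -/
theorem sat_of_value (hH : H.IsCohomology) {v : Fin 23 → ℤ} (hv : H.IsHodge v) {n : ℤ}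
    (h : H.disc v = 2 * n ^ 2 + 2 * n + 2) :
    ∃ d, (∃ a n : ℤ, a ^ 2 * d = 2 * n ^ 2 + 2 * n + 2) ∧
      ∃ w, H.IsHodge w ∧ H.Saturated w ∧ H.disc w = d := by
  have hpos : 0 < H.disc v := by
    rw [h]
    nlinarith [sq_nonneg (2 * n + 1)]
  obtain ⟨w, m, hm, hw, hsat, hd⟩ := exists_sat hH hv hpos
  exact ⟨H.disc w, ⟨m, n, by rw [← hd, h]⟩, w, hw, hsat, rfl⟩

/-- Addington's condition implies Hassett's -/
theorem hasK3_of_addington (hH : H.IsCohomology) {w : Fin 23 → ℤ} (hw : H.IsHodge w)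
    (hsat : H.Saturated w) {a n : ℤ} (h : a ^ 2 * H.disc w = 2 * n ^ 2 + 2 * n + 2) :
    H.HasK3 := by
  have hw0 : 0 < H.disc w := by
    by_contra hcon
    push Not at hcon
    have h1 : a ^ 2 * H.disc w ≤ 0 := mul_nonpos_of_nonneg_of_nonpos (by positivity) hcon
    rw [h] at h1
    nlinarith [sq_nonneg (2 * n + 1)]
  exact ⟨w, hw, hsat, hH.six_lt hw hw0, four_not_dvd h, nine_not_dvd h,
    fun p hp hp2 hd => prime_mod h hp hp2 hd⟩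

/-- two more orthogonal classes -/
theorem exists_two_orth (hH : H.IsCohomology) (hr : 4 ≤ finrank ℤ H.hodge) (v1 : H.hodge) :
    ∃ y2 y3 : H.hodge, (hq hH).b v1 y2 = 0 ∧ (hq hH).b v1 y3 = 0 ∧ (hq hH).b y2 y3 = 0 ∧
      (hq hH).f y2 ≠ 0 ∧ (hq hH).f y3 ≠ 0 := by
  obtain ⟨y2, hy2, ho2⟩ := exists_orth (H := H) (k := 2) (by omega) ![H.h, v1]
  have h20 : H.ip (y2 : Fin 23 → ℤ) H.h = 0 := ho2 0
  have h21 : H.ip (y2 : Fin 23 → ℤ) v1 = 0 := ho2 1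
  obtain ⟨y3, hy3, ho3⟩ := exists_orth (H := H) (k := 3) (by omega) ![H.h, v1, y2]
  have h30 : H.ip (y3 : Fin 23 → ℤ) H.h = 0 := ho3 0
  have h31 : H.ip (y3 : Fin 23 → ℤ) v1 = 0 := ho3 1
  have h32 : H.ip (y3 : Fin 23 → ℤ) y2 = 0 := ho3 2
  have hf : ∀ y : H.hodge, y ≠ 0 → H.ip (y : Fin 23 → ℤ) H.h = 0 → (hq hH).f y ≠ 0 := by
    intro y hy h0
    rw [hq_f]
    have hp : 0 < H.ip (y : Fin 23 → ℤ) y := hH.pos _ y.2 fun h => hy (Subtype.ext h)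
    have hd := disc_prim hH h0
    have := disc_half hH (y : Fin 23 → ℤ)
    omega
  refine ⟨y2, y3, ?_, ?_, ?_, hf y2 hy2 h20, hf y3 hy3 h30⟩
  · show 3 * H.ip (v1 : Fin 23 → ℤ) y2 - H.ip H.h v1 * H.ip H.h y2 = 0
    rw [hH.comm _ (y2 : Fin 23 → ℤ), h21, hH.comm H.h (y2 : Fin 23 → ℤ), h20]
    ring
  · show 3 * H.ip (v1 : Fin 23 → ℤ) y3 - H.ip H.h v1 * H.ip H.h y3 = 0
    rw [hH.comm _ (y3 : Fin 23 → ℤ), h31, hH.comm H.h (y3 : Fin 23 → ℤ), h30]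
    ring
  · show 3 * H.ip (y2 : Fin 23 → ℤ) y3 - H.ip H.h y2 * H.ip H.h y3 = 0
    rw [hH.comm _ (y3 : Fin 23 → ℤ), h32, hH.comm H.h (y3 : Fin 23 → ℤ), h30]
    ring

/-- **Values `2 n² + 2 n + 2` of the discriminant** -/
theorem value_of_local (hH : H.IsCohomology) (hr : 4 ≤ finrank ℤ H.hodge) {v : Fin 23 → ℤ}
    (hv : H.IsHodge v) {k : ℤ} (hk : k ≠ 0) (hd : H.disc v = 2 * k ^ 2)
    (hloc : ∀ p : ℕ, p.Prime → p % 3 ≠ 1 → (p : ℤ) ∣ 2 * k →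
      ∃ w, H.IsHodge w ∧ AdmissibleAt p (H.disc w)) :
    ∃ (w : Fin 23 → ℤ) (n : ℤ), H.IsHodge w ∧ H.disc w = 2 * n ^ 2 + 2 * n + 2 := by
  obtain ⟨y2, y3, h1, h2, h3, h4, h5⟩ := exists_two_orth hH hr ⟨v, hv⟩
  have hf : (hq hH).f ⟨v, hv⟩ = k ^ 2 := by
    rw [hq_f]
    show H.disc v / 2 = k ^ 2
    rw [hd]
    omega
  obtain ⟨w, j, hw⟩ := core_iso (hq hH) hk hf h1 h2 h3 h4 h5 (by
    intro p hp hp3 hpd
    obtain ⟨u, hu, hadm⟩ := hloc p hp hp3 hpd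
    exact ⟨⟨u, hu⟩, good_of_adm hH hp hp3 hadm⟩)
  refine ⟨w, j, w.2, ?_⟩
  rw [hq_f] at hw
  have := disc_half hH (w : Fin 23 → ℤ)
  rw [this, hw]
  ring

/-- **A class whose discriminant is twice a square** (Meyer) -/
theorem exists_square (hH : H.IsCohomology) (hr : 5 ≤ finrank ℤ H.hodge) :
    ∃ (v : Fin 23 → ℤ) (k : ℤ), k ≠ 0 ∧ H.IsHodge v ∧ H.disc v = 2 * k ^ 2 := by
  obtain ⟨w1, hw1, ho1⟩ := exists_orth (H := H) (k := 1) (by omega) ![H.h]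
  obtain ⟨w2, hw2, ho2⟩ := exists_orth (H := H) (k := 2) (by omega) ![H.h, w1]
  obtain ⟨w3, hw3, ho3⟩ := exists_orth (H := H) (k := 3) (by omega) ![H.h, w1, w2]
  obtain ⟨w4, hw4, ho4⟩ := exists_orth (H := H) (k := 4) (by omega) ![H.h, w1, w2, w3]
  have h10 : H.ip (w1 : Fin 23 → ℤ) H.h = 0 := ho1 0
  have h20 : H.ip (w2 : Fin 23 → ℤ) H.h = 0 := ho2 0
  have h21 : H.ip (w2 : Fin 23 → ℤ) w1 = 0 := ho2 1
  have h30 : H.ip (w3 : Fin 23 → ℤ) H.h = 0 := ho3 0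
  have h31 : H.ip (w3 : Fin 23 → ℤ) w1 = 0 := ho3 1
  have h32 : H.ip (w3 : Fin 23 → ℤ) w2 = 0 := ho3 2
  have h40 : H.ip (w4 : Fin 23 → ℤ) H.h = 0 := ho4 0
  have h41 : H.ip (w4 : Fin 23 → ℤ) w1 = 0 := ho4 1
  have h42 : H.ip (w4 : Fin 23 → ℤ) w2 = 0 := ho4 2
  have h43 : H.ip (w4 : Fin 23 → ℤ) w3 = 0 := ho4 3
  have h01 : H.ip H.h (w1 : Fin 23 → ℤ) = 0 := by rw [hH.comm]; exact h10
  have h02 : H.ip H.h (w2 : Fin 23 → ℤ) = 0 := by rw [hH.comm]; exact h20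
  have h03 : H.ip H.h (w3 : Fin 23 → ℤ) = 0 := by rw [hH.comm]; exact h30
  have h04 : H.ip H.h (w4 : Fin 23 → ℤ) = 0 := by rw [hH.comm]; exact h40
  have h12 : H.ip (w1 : Fin 23 → ℤ) w2 = 0 := by rw [hH.comm]; exact h21
  have h13 : H.ip (w1 : Fin 23 → ℤ) w3 = 0 := by rw [hH.comm]; exact h31
  have h14 : H.ip (w1 : Fin 23 → ℤ) w4 = 0 := by rw [hH.comm]; exact h41
  have h23 : H.ip (w2 : Fin 23 → ℤ) w3 = 0 := by rw [hH.comm]; exact h32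
  have h24 : H.ip (w2 : Fin 23 → ℤ) w4 = 0 := by rw [hH.comm]; exact h42
  have h34 : H.ip (w3 : Fin 23 → ℤ) w4 = 0 := by rw [hH.comm]; exact h43
  have hpos : ∀ y : H.hodge, y ≠ 0 → H.ip (y : Fin 23 → ℤ) H.h = 0 →
      0 < H.disc (y : Fin 23 → ℤ) / 2 := by
    intro y hy h0
    have hp : 0 < H.ip (y : Fin 23 → ℤ) y := hH.pos _ y.2 fun h => hy (Subtype.ext h)
    have hd := disc_prim hH h0
    have := disc_half hH (y : Fin 23 → ℤ)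
    omega
  have hp1 := hpos w1 hw1 h10
  have hp2 := hpos w2 hw2 h20
  have hp3 := hpos w3 hw3 h30
  have hp4 := hpos w4 hw4 h40
  have hf1 := disc_half hH (w1 : Fin 23 → ℤ)
  have hf2 := disc_half hH (w2 : Fin 23 → ℤ)
  have hf3 := disc_half hH (w3 : Fin 23 → ℤ)
  have hf4 := disc_half hH (w4 : Fin 23 → ℤ)
  set D1 := H.disc (w1 : Fin 23 → ℤ) / 2 with hD1
  set D2 := H.disc (w2 : Fin 23 → ℤ) / 2 with hD2
  set D3 := H.disc (w3 : Fin 23 → ℤ) / 2 with hD3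
  set D4 := H.disc (w4 : Fin 23 → ℤ) / 2 with hD4
  have hcomb : ∀ c d e f : ℤ, H.disc (c • (w1 : Fin 23 → ℤ) + d • (w2 : Fin 23 → ℤ)
      + e • (w3 : Fin 23 → ℤ) + f • (w4 : Fin 23 → ℤ)) = c ^ 2 * H.disc (w1 : Fin 23 → ℤ)
      + d ^ 2 * H.disc (w2 : Fin 23 → ℤ) + e ^ 2 * H.disc (w3 : Fin 23 → ℤ)
      + f ^ 2 * H.disc (w4 : Fin 23 → ℤ) := by
    intro c d e f
    simp only [disc, ip_add_left, ip_add_right, ip_smul_left, ip_smul_right, h10, h01,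
      h20, h02, h12, h21, h30, h03, h31, h13, h32, h23, h40, h04, h41, h14, h42, h24, h43, h34]
    ring
  obtain ⟨x, hx, he⟩ := Pool.Agent.R847.QB.meyer Pool.Agent.R847.QB.iso_ Pool.Agent.R847.QB.dir_
    ![1, -D1, -D2, -D3, -D4] (by
      intro i
      fin_cases i <;> simp <;> omega) ⟨0, by simp⟩ ⟨1, by simpa using hp1⟩
  simp only [Fin.sum_univ_five] at he
  simp at he
  obtain ⟨N, hN, z, hz⟩ := common x
  have z0 : (N : ℚ) * x 0 = z 0 := hz 0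
  have z1 : (N : ℚ) * x 1 = z 1 := hz 1
  have z2 : (N : ℚ) * x 2 = z 2 := hz 2
  have z3 : (N : ℚ) * x 3 = z 3 := hz 3
  have z4 : (N : ℚ) * x 4 = z 4 := hz 4
  have hq : z 0 ^ 2 = D1 * z 1 ^ 2 + D2 * z 2 ^ 2 + D3 * z 3 ^ 2 + D4 * z 4 ^ 2 := by
    have : ((z 0 : ℚ)) ^ 2 = D1 * (z 1 : ℚ) ^ 2 + D2 * (z 2 : ℚ) ^ 2
        + D3 * (z 3 : ℚ) ^ 2 + D4 * (z 4 : ℚ) ^ 2 := by
      rw [← z0, ← z1, ← z2, ← z3, ← z4]
      linear_combination (N : ℚ) ^ 2 * he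
    exact_mod_cast this
  have hz0 : z 0 ≠ 0 := by
    intro h0
    rw [h0] at hq
    have q1 : 0 ≤ D1 * z 1 ^ 2 := by positivity
    have q2 : 0 ≤ D2 * z 2 ^ 2 := by positivity
    have q3 : 0 ≤ D3 * z 3 ^ 2 := by positivity
    have q4 : 0 ≤ D4 * z 4 ^ 2 := by positivity
    have e1 : z 1 = 0 := by
      have : D1 * z 1 ^ 2 = 0 := by linarith
      exact pow_eq_zero_iff (two_ne_zero) |>.1 ((mul_eq_zero.1 this).resolve_left hp1.ne')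
    have e2 : z 2 = 0 := by
      have : D2 * z 2 ^ 2 = 0 := by linarith
      exact pow_eq_zero_iff (two_ne_zero) |>.1 ((mul_eq_zero.1 this).resolve_left hp2.ne')
    have e3 : z 3 = 0 := by
      have : D3 * z 3 ^ 2 = 0 := by linarith
      exact pow_eq_zero_iff (two_ne_zero) |>.1 ((mul_eq_zero.1 this).resolve_left hp3.ne')
    have e4 : z 4 = 0 := by
      have : D4 * z 4 ^ 2 = 0 := by linarith
      exact pow_eq_zero_iff (two_ne_zero) |>.1 ((mul_eq_zero.1 this).resolve_left hp4.ne')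
    apply hx
    have hN' : (N : ℚ) ≠ 0 := by exact_mod_cast hN.ne'
    funext i
    have hi : ∀ i, z i = 0 := by
      intro i
      fin_cases i
      · exact h0
      · exact e1
      · exact e2
      · exact e3
      · exact e4
    have := hz i
    rw [hi i] at this
    exact (mul_eq_zero.1 (this.trans (by norm_num))).resolve_left hN'
  refine ⟨z 1 • (w1 : Fin 23 → ℤ) + z 2 • (w2 : Fin 23 → ℤ) + z 3 • (w3 : Fin 23 → ℤ)
    + z 4 • (w4 : Fin 23 → ℤ), z 0, hz0, H.isHodge_add (H.isHodge_add (H.isHodge_add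
      (H.isHodge_smul _ w1.2) (H.isHodge_smul _ w2.2)) (H.isHodge_smul _ w3.2))
      (H.isHodge_smul _ w4.2), ?_⟩
  rw [hcomb, hf1, hf2, hf3, hf4, hq]
  ring

end Pool.Agent.K9h38.CF
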