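import Pool.Agent.K9h38.CF.Small
import Pool.Agent.K9h38.CF.Main

/-!
# Cubic fourfolds in the divisors of discriminant eight and eighteen
-/

set_option autoImplicit false

namespace Pool.Agent.K9h38.CF

open Pool.Agent.Y95.Q Pool.Agent.Y95.Q.H4 Pool.Agent.X328.CF Pool.Agent.N801.CF Module

variable {X : CubicFourfold} {H : H4 X}

theorem of_value (hH : H.IsCohomology) (h : ∃ (v : H.hodge) (j : ℤ), (hq hH).f v = j ^ 2 + j + 1) :
    ∃ (v : Fin 23 → ℤ) (n : ℤ), H.IsHodge v ∧ H.disc v = 2 * n ^ 2 + 2 * n + 2 := by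
  obtain ⟨v, j, hv⟩ := h
  refine ⟨v, j, v.2, ?_⟩
  rw [hq_f] at hv
  have := disc_half hH (v : Fin 23 → ℤ)
  rw [this, hv]
  ring

/-- discriminant eight -/
theorem value_eight (hH : H.IsCohomology) {P u : Fin 23 → ℤ} (hP : H.IsHodge P)
    (h8 : H.disc P = 8) (hu : H.IsHodge u)
    (h : ¬ 4 ∣ H.disc u ∨ Odd (3 * H.ip P u - H.ip H.h P * H.ip H.h u)) :
    ∃ (v : Fin 23 → ℤ) (n : ℤ), H.IsHodge v ∧ H.disc v = 2 * n ^ 2 + 2 * n + 2 := by
  apply of_value hH
  refine value_four (hq hH) (P := ⟨P, hP⟩) (u := ⟨u, hu⟩) ?_ ?_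
  · rw [hq_f]
    show H.disc P / 2 = 4
    rw [h8]
    norm_num
  · rcases h with h | h
    · left
      rw [hq_f]
      show Odd (H.disc u / 2)
      have := disc_half hH u
      rw [Int.odd_iff]
      omega
    · right
      exact h

/-- discriminant eighteen -/
theorem value_eighteen (hH : H.IsCohomology) {P u : Fin 23 → ℤ} (hP : H.IsHodge P)
    (h18 : H.disc P = 18) (hu : H.IsHodge u) (h : AdmissibleAt 3 (H.disc u)) :
    ∃ (v : Fin 23 → ℤ) (n : ℤ), H.IsHodge v ∧ H.disc v = 2 * n ^ 2 + 2 * n + 2 := by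
  apply of_value hH
  refine value_nine (hq hH) (P := ⟨P, hP⟩) (u := ⟨u, hu⟩) ?_ ?_ ?_
  · rw [hq_f]
    show H.disc P / 2 = 9
    rw [h18]
    norm_num
  · show 3 ∣ 3 * H.ip P u - H.ip H.h P * H.ip H.h u
    have h3 : (3 : ℤ) ∣ H.ip H.h P := by
      have : (3 : ℤ) ∣ H.ip H.h P ^ 2 := by
        have e : H.ip H.h P ^ 2 = 3 * H.ip P P - H.disc P := by unfold disc; ring
        rw [e, h18]
        omega
      exact Int.prime_three.dvd_of_dvd_pow this
    exact dvd_sub (dvd_mul_right _ _) (h3.mul_right _)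
  · exact (good_of_adm hH Nat.prime_three (by norm_num) h).1 rfl

end Pool.Agent.K9h38.CF
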