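import Pool.Agent.N801.CF.Main1

/-!
# Cubic fourfolds with at least thirteen independent Hodge classes: the local conditions
-/

set_option autoImplicit false

namespace Pool.Agent.K9h38.CF

open Pool.Agent.Y95.Q Pool.Agent.Y95.Q.H4 Pool.Agent.X328.CF Pool.Agent.N801.CF Module Finset

variable {X : CubicFourfold} {H : H4 X}

/-- reduction modulo `p` -/
def rd (p : ℕ) : (Fin 23 → ℤ) →+ (Fin 23 → ZMod p) where
  toFun v i := (v i : ZMod p)
  map_zero' := by ext i; simp
  map_add' u v := by ext i; simp

theorem rd_apply (p : ℕ) (v : Fin 23 → ℤ) (i : Fin 23) : rd p v i = (v i : ZMod p) := rfl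

theorem rd_smul (p : ℕ) (n : ℤ) (v : Fin 23 → ℤ) : rd p (n • v) = (n : ZMod p) • rd p v := by
  ext i
  simp [rd_apply]

theorem exists_div {p : ℕ} (v : Fin 23 → ℤ) (h : rd p v = 0) : ∃ w, v = (p : ℤ) • w := by
  refine ⟨fun i => v i / p, ?_⟩
  ext i
  have h1 : (v i : ZMod p) = 0 := congrFun h i
  have h2 : (p : ℤ) ∣ v i := (ZMod.intCast_zmod_eq_zero_iff_dvd (v i) p).1 h1
  rw [Pi.smul_apply, smul_eq_mul]
  exact (Int.mul_ediv_cancel' h2).symm

/-- a basis of the group of the Hodge classes is independent modulo `p` -/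
theorem rd_indep {p : ℕ} (hp : p.Prime) {r : ℕ} (b : Basis (Fin r) ℤ H.hodge) :
    LinearIndependent (ZMod p) fun i => rd p (b i : Fin 23 → ℤ) := by
  classical
  have : Fact p.Prime := ⟨hp⟩
  have hp0 : (p : ℤ) ≠ 0 := by exact_mod_cast hp.ne_zero
  rw [Fintype.linearIndependent_iff]
  intro c hc i
  let x : H.hodge := ∑ i, ((c i).val : ℤ) • b i
  have h1 : rd p (x : Fin 23 → ℤ) = 0 := by
    rw [← hc]
    simp only [x, Submodule.coe_sum, Submodule.coe_smul, map_sum]
    refine sum_congr rfl fun i _ => ?_
    rw [rd_smul]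
    congr 1
    simp
  obtain ⟨w, hw⟩ := exists_div _ h1
  have hwH : H.IsHodge w := H.isHodge_of_smul hp0 (by rw [← hw]; exact x.2)
  let w' : H.hodge := ⟨w, hwH⟩
  have h2 : x = (p : ℤ) • w' := Subtype.ext hw
  have h3 : b.repr x i = ((c i).val : ℤ) := by
    simp only [x, map_sum, map_smul, Finsupp.coe_finsetSum, Finset.sum_apply,
      Finsupp.smul_apply, Basis.repr_self, smul_eq_mul, Finsupp.single_apply]
    rw [Finset.sum_eq_single i]
    · simp
    · intro j _ hj
      simp [hj]
    · simp
  have h4 : b.repr x i = p * b.repr w' i := by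
    rw [h2, map_smul, Finsupp.smul_apply, smul_eq_mul]
  have h5 : ((c i).val : ℤ) = p * b.repr w' i := h3.symm.trans h4
  have h6 : (((c i).val : ℤ) : ZMod p) = c i := by simp
  rw [← h6, h5]
  push_cast
  simp

/-- the intersection form modulo `p` -/
noncomputable def bp (H : H4 X) (p : ℕ) : LinearMap.BilinForm (ZMod p) (Fin 23 → ZMod p) :=
  Matrix.toBilin' (H.B.map (Int.castRingHom (ZMod p)))

theorem bp_rd (p : ℕ) (v w : Fin 23 → ℤ) : bp H p (rd p v) (rd p w) = (H.ip v w : ZMod p) := by
  unfold bp ip
  rw [Matrix.toBilin'_apply]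
  push_cast
  rfl

theorem bp_nondeg (hH : H.IsCohomology) {p : ℕ} (hp : p.Prime) : (bp H p).Nondegenerate := by
  have : Fact p.Prime := ⟨hp⟩
  unfold bp
  apply LinearMap.BilinForm.nondegenerate_toBilin'_of_det_ne_zero'
  have h1 : (H.B.map (Int.castRingHom (ZMod p))).det = (Int.castRingHom (ZMod p)) H.B.det := by
    rw [RingHom.map_det]
    rfl
  rw [h1]
  exact (hH.unimodular.map _).ne_zero

/-- **Isotropic hyperplanes.** If a hyperplane of the space of the Hodge classes modulo `p`, given by a
functional, is orthogonal to all Hodge classes modulo `p`, then the rank is at most twelve. -/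
theorem rank_le (hH : H.IsCohomology) {p : ℕ} (hp : p.Prime) (x : Fin 23 → ℤ)
    (h : ∀ v w, H.IsHodge v → H.IsHodge w → (p : ℤ) ∣ H.ip v x → (p : ℤ) ∣ H.ip v w) :
    finrank ℤ H.hodge ≤ 12 := by
  classical
  have : Fact p.Prime := ⟨hp⟩
  let b := Module.finBasis ℤ H.hodge
  set r := finrank ℤ H.hodge with hr
  have hli := rd_indep (H := H) hp b
  set W : Submodule (ZMod p) (Fin 23 → ZMod p) := Submodule.span (ZMod p)
    (Set.range fun i => rd p (b i : Fin 23 → ℤ)) with hW
  have hWr : finrank (ZMod p) W = r := by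
    rw [hW, finrank_span_eq_card hli, Fintype.card_fin]
  -- every element of `W` is the class of a Hodge class
  have hlift : ∀ y ∈ W, ∃ v, H.IsHodge v ∧ rd p v = y := by
    intro y hy
    refine Submodule.span_induction (p := fun y _ => ∃ v, H.IsHodge v ∧ rd p v = y) ?_ ?_ ?_ ?_ hy
    · rintro _ ⟨i, rfl⟩
      exact ⟨_, (b i).2, rfl⟩
    · exact ⟨0, H.isHodge_zero, map_zero _⟩
    · rintro y z _ _ ⟨v, hv, rfl⟩ ⟨w, hw, rfl⟩
      exact ⟨v + w, H.isHodge_add hv hw, map_add _ _ _⟩
    · rintro c y _ ⟨v, hv, rfl⟩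
      refine ⟨(c.val : ℤ) • v, H.isHodge_smul _ hv, ?_⟩
      rw [rd_smul]
      congr 1
      simp
  -- the hyperplane
  let ℓ : (Fin 23 → ZMod p) →ₗ[ZMod p] ZMod p := (bp H p).flip (rd p x)
  have hℓ : ∀ v, ℓ (rd p v) = (H.ip v x : ZMod p) := fun v => bp_rd p v x
  have hker : W ⊓ LinearMap.ker ℓ ≤ (bp H p).orthogonal W := by
    rintro y ⟨hyW, hy⟩ z hz
    obtain ⟨v, hv, rfl⟩ := hlift y hyW
    obtain ⟨w, hw, rfl⟩ := hlift z hz
    have h1 : (p : ℤ) ∣ H.ip v x := by
      rw [← ZMod.intCast_zmod_eq_zero_iff_dvd, ← hℓ]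
      exact hy
    have h2 := h v w hv hw h1
    show bp H p (rd p w) (rd p v) = 0
    rw [bp_rd, hH.comm, ZMod.intCast_zmod_eq_zero_iff_dvd]
    exact h2
  have hdim : r ≤ finrank (ZMod p) (W ⊓ LinearMap.ker ℓ : Submodule _ _) + 1 := by
    have h1 := LinearMap.finrank_range_add_finrank_ker (ℓ.domRestrict W)
    have h2 : finrank (ZMod p) (LinearMap.range (ℓ.domRestrict W)) ≤ 1 := by
      refine (Submodule.finrank_le _).trans ?_
      rw [finrank_self]
    have h3 : finrank (ZMod p) (LinearMap.ker (ℓ.domRestrict W)) =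
        finrank (ZMod p) (W ⊓ LinearMap.ker ℓ : Submodule _ _) := by
      rw [LinearMap.ker_domRestrict, ← Submodule.finrank_map_subtype_eq W,
        Submodule.map_comap_subtype]
    omega
  have h23 := LinearMap.BilinForm.finrank_orthogonal (bp_nondeg hH hp) W
  have hfin : finrank (ZMod p) (Fin 23 → ZMod p) = 23 := by rw [finrank_fin_fun]
  have hle := Submodule.finrank_mono hker
  rw [h23, hfin, hWr] at hle
  omega

/-- **The local conditions hold if the rank is at least thirteen.** -/
theorem local_of_rank (hH : H.IsCohomology) (hr : 13 ≤ finrank ℤ H.hodge) {p : ℕ} (hp : p.Prime) :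
    ∃ w, H.IsHodge w ∧ AdmissibleAt p (H.disc w) := by
  by_contra hcon
  push Not at hcon
  have hpp := Nat.prime_iff_prime_int.1 hp
  have hlt : 12 < finrank ℤ H.hodge := by omega
  -- the polar form
  have hb : ∀ v w, H.disc (v + w) = H.disc v + H.disc w +
      2 * (3 * H.ip v w - H.ip H.h v * H.ip H.h w) := fun v w => disc_sum hH v w
  by_cases hp3 : p = 3
  · subst hp3
    -- all products with `h` are divisible by three
    have hh : ∀ v, H.IsHodge v → (3 : ℤ) ∣ H.ip H.h v := by
      intro v hv
      by_contra h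
      apply hcon v hv
      refine ⟨fun h => absurd h (by norm_num), fun _ => Or.inl ?_, fun _ h => absurd h (by norm_num)⟩
      intro h3
      unfold disc at h3
      have h4 : (3 : ℤ) ∣ H.ip H.h v ^ 2 := by
        have : H.ip H.h v ^ 2 = 3 * H.ip v v - (3 * H.ip v v - H.ip H.h v ^ 2) := by ring
        rw [this]
        exact dvd_sub (dvd_mul_right _ _) h3
      exact h (Int.prime_three.dvd_of_dvd_pow h4)
    -- the squares are `0` or `1` modulo three
    have hsq : ∀ v, H.IsHodge v → H.ip v v % 3 ≠ 2 := by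
      intro v hv h
      apply hcon v hv
      refine ⟨fun h => absurd h (by norm_num), fun _ => Or.inr ?_, fun _ h => absurd h (by norm_num)⟩
      obtain ⟨t, ht⟩ := hh v hv
      have he := disc_even hH v
      have e : H.disc v = 3 * H.ip v v - 9 * t ^ 2 := by
        unfold disc
        rw [ht]
        ring
      rw [e] at he ⊢
      generalize t ^ 2 = s at *
      generalize H.ip v v = z at *
      omega
    by_cases hall : ∀ v, H.IsHodge v → H.ip v v % 3 = 0
    · have := rank_le hH hp 0 (by
        intro v w hv hw _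
        have h1 := hall v hv
        have h2 := hall w hw
        have h3 := hall (v + w) (H.isHodge_add hv hw)
        rw [ip_add_left, ip_add_right, ip_add_right, hH.comm w v] at h3
        push_cast
        omega)
      omega
    · push Not at hall
      obtain ⟨v0, hv0, h0⟩ := hall
      have h01 := hsq v0 hv0
      have := rank_le hH hp v0 (by
        intro v w hv hw hd
        push_cast at hd ⊢
        -- squares vanish on the hyperplane
        have hz : ∀ u, H.IsHodge u → (3 : ℤ) ∣ H.ip u v0 → H.ip u u % 3 = 0 := by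
          intro u hu hd
          have h1 := hsq u hu
          have h2 := hsq (u + v0) (H.isHodge_add hu hv0)
          rw [ip_add_left, ip_add_right, ip_add_right, hH.comm v0 u] at h2
          omega
        -- `w = w0 + c v0`
        set c := H.ip w v0 * H.ip v0 v0 with hc
        have hv00 : H.ip v0 v0 % 3 = 1 := by omega
        set w0 := w - c • v0 with hw0
        have hw0H : H.IsHodge w0 := H.isHodge_sub hw (H.isHodge_smul _ hv0)
        have hw0d : (3 : ℤ) ∣ H.ip w0 v0 := by
          rw [hw0, ip_sub_left, ip_smul_left, hc]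
          obtain ⟨m, hm⟩ : ∃ m, H.ip v0 v0 = 3 * m + 1 := ⟨H.ip v0 v0 / 3, by omega⟩
          rw [hm]
          exact ⟨-H.ip w v0 * (3 * m ^ 2 + 2 * m), by ring⟩
        have z1 := hz v hv hd
        have z2 := hz w0 hw0H hw0d
        have z3 := hz (v + w0) (H.isHodge_add hv hw0H) (by
          rw [ip_add_left]
          exact dvd_add hd hw0d)
        rw [ip_add_left, ip_add_right, ip_add_right, hH.comm w0 v] at z3
        have z4 : (3 : ℤ) ∣ H.ip v w0 := by omega
        have e : H.ip v w = H.ip v w0 + c * H.ip v v0 := by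
          rw [hw0, ip_sub_right, ip_smul_right]
          ring
        rw [e]
        exact dvd_add z4 (hd.mul_left _))
      omega
  · -- the other primes
    have key : ∀ v w, H.IsHodge v → H.IsHodge w →
        (p : ℤ) ∣ 3 * H.ip v w - H.ip H.h v * H.ip H.h w := by
      intro v w hv hw
      by_cases hp2 : p = 2
      · subst hp2
        have h4 : ∀ u, H.IsHodge u → 4 ∣ H.disc u := by
          intro u hu
          by_contra h
          exact hcon u hu ⟨fun _ => h, fun h => absurd h (by norm_num), fun h => absurd rfl h⟩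
        have a1 := h4 v hv
        have a2 := h4 w hw
        have a3 := h4 (v + w) (H.isHodge_add hv hw)
        rw [hb] at a3
        push_cast
        omega
      · have hp3' : p % 3 = 2 := by
          by_contra h
          exact hcon H.h hH.h_hodge ⟨fun h => absurd h hp2, fun h => absurd h hp3,
            fun _ h' => absurd h' h⟩
        have h4 : ∀ u, H.IsHodge u → (p : ℤ) ∣ H.disc u := by
          intro u hu
          by_contra h
          exact hcon u hu ⟨fun h => absurd h hp2, fun h => absurd h hp3, fun _ _ => h⟩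
        have a3 := h4 (v + w) (H.isHodge_add hv hw)
        rw [hb] at a3
        have a4 : (p : ℤ) ∣ 2 * (3 * H.ip v w - H.ip H.h v * H.ip H.h w) := by
          have e : 2 * (3 * H.ip v w - H.ip H.h v * H.ip H.h w) = (H.disc v + H.disc w +
            2 * (3 * H.ip v w - H.ip H.h v * H.ip H.h w)) - H.disc v - H.disc w := by ring
          rw [e]
          exact dvd_sub (dvd_sub a3 (h4 v hv)) (h4 w hw)
        rcases hpp.dvd_or_dvd a4 with h | h
        · have h' : p ∣ 2 := by exact_mod_cast h
          exact absurd ((Nat.prime_dvd_prime_iff_eq hp Nat.prime_two).1 h') hp2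
        · exact h
    have := rank_le hH hp H.h (by
      intro v w hv hw hd
      have h1 := key v w hv hw
      have h2 : (p : ℤ) ∣ 3 * H.ip v w := by
        have e : 3 * H.ip v w = (3 * H.ip v w - H.ip H.h v * H.ip H.h w) +
          H.ip H.h v * H.ip H.h w := by ring
        rw [e]
        refine dvd_add h1 (Dvd.dvd.mul_right ?_ _)
        rw [hH.comm]
        exact hd
      rcases hpp.dvd_or_dvd h2 with h | h
      · have h' : p ∣ 3 := by exact_mod_cast h
        exact absurd ((Nat.prime_dvd_prime_iff_eq hp Nat.prime_three).1 h') hp3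
      · exact h)
    omega

end Pool.Agent.K9h38.CF
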