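import Pool.Agent.K9h38.CF.LocData

/-!
# Explicit values `j² + j + 1`: classes with the values four and nine
-/

set_option autoImplicit false

namespace Pool.Agent.K9h38.CF

open Pool.Agent.N801.CF

variable {M : Type*} [AddCommGroup M] (Q : QF M)

/-- a divisor gives a value -/
theorem step {v1 u : M} {k r x : ℤ} (h1 : Q.f v1 = k ^ 2)
    (h : x * (Q.b v1 u + k * (2 * r - 1)) = r ^ 2 - r + 1 - Q.f u) :
    ∃ (v : M) (j : ℤ), Q.f v = j ^ 2 + j + 1 := by
  refine ⟨x • v1 + u, k * x - r, ?_⟩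
  rw [Q.f_add, Q.f_smul, Q.b_smul, h1]
  linear_combination h

theorem step' {v1 u : M} {k r n : ℤ} (h1 : Q.f v1 = k ^ 2)
    (hn : Q.b v1 u + k * (2 * r - 1) = n) (h : n ∣ r ^ 2 - r + 1 - Q.f u) :
    ∃ (v : M) (j : ℤ), Q.f v = j ^ 2 + j + 1 := by
  obtain ⟨x, hx⟩ := h
  refine step Q h1 (x := x) (r := r) (u := u) ?_
  rw [hn, hx]
  ring

theorem sq_even (r : ℤ) : ∃ t, r ^ 2 - r = 2 * t := by
  obtain ⟨t, ht⟩ := Int.even_mul_pred_self r
  exact ⟨t, by linear_combination ht⟩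

/-- the value four (a plane) -/
theorem value_four {P u : M} (hP : Q.f P = 4)
    (hu : Odd (Q.f u) ∨ Odd (Q.b P u)) : ∃ (v : M) (j : ℤ), Q.f v = j ^ 2 + j + 1 := by
  have hP' : Q.f P = 2 ^ 2 := by rw [hP]; norm_num
  have h4 : Q.b P u % 4 = 0 ∨ Q.b P u % 4 = 1 ∨ Q.b P u % 4 = 2 ∨ Q.b P u % 4 = 3 := by omega
  rcases h4 with h | h | h | h
  · obtain ⟨s, hs⟩ : ∃ s, Q.b P u = 4 * s := ⟨Q.b P u / 4, by omega⟩
    have hodd : Odd (Q.f u) := by
      rcases hu with h' | h'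
      · exact h'
      · exfalso
        rw [Int.odd_iff] at h'
        omega
    obtain ⟨w, hw⟩ := hodd
    obtain ⟨t, ht⟩ := sq_even (1 - s)
    refine step' Q hP' (r := 1 - s) (n := 2) (by rw [hs]; ring) ⟨t - w, ?_⟩
    rw [hw]
    linear_combination ht
  · obtain ⟨s, hs⟩ : ∃ s, Q.b P u = 4 * s + 1 := ⟨Q.b P u / 4, by omega⟩
    refine step' Q hP' (r := -s) (n := -1) (by rw [hs]; ring) ?_
    exact (Int.isUnit_iff.2 (Or.inr rfl)).dvd
  · obtain ⟨s, hs⟩ : ∃ s, Q.b P u = 4 * s + 2 := ⟨Q.b P u / 4, by omega⟩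
    have hodd : Odd (Q.f u) := by
      rcases hu with h' | h'
      · exact h'
      · exfalso
        rw [Int.odd_iff] at h'
        omega
    obtain ⟨w, hw⟩ := hodd
    obtain ⟨t, ht⟩ := sq_even s
    rcases Int.even_or_odd (t - w) with ⟨z, hz⟩ | ⟨z, hz⟩
    · refine step' Q hP' (r := 1 - s) (n := 4) (by rw [hs]; ring) ⟨z, ?_⟩
      rw [hw]
      linear_combination ht + 2 * hz
    · refine step' Q hP' (r := -1 - s) (n := -4) (by rw [hs]; ring) ⟨-z - s - 1, ?_⟩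
      rw [hw]
      linear_combination ht + 2 * hz
  · obtain ⟨s, hs⟩ : ∃ s, Q.b P u = 4 * s + 3 := ⟨Q.b P u / 4, by omega⟩
    refine step' Q hP' (r := -s) (n := 1) (by rw [hs]; ring) (one_dvd _)

theorem value_nine_aux {P u : M} (hP : Q.f P = 9) {c : ℤ} (hc : Q.b P u = 3 * c)
    (hg : Q.f u % 3 = 1 ∨ Q.f u % 9 = 3) (hpar : c % 2 = 0 ∨ Q.f u % 2 = 1) :
    ∃ (v : M) (j : ℤ), Q.f v = j ^ 2 + j + 1 := by
  have hP' : Q.f P = 3 ^ 2 := by rw [hP]; norm_num
  -- the value of `r ^ 2 - r + 1` modulo nine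
  have e2 : ∀ r : ℤ, r % 3 = 2 → ∃ t, r ^ 2 - r + 1 = 9 * t + 3 := by
    intro r hr
    obtain ⟨s, rfl⟩ : ∃ s, r = 3 * s + 2 := ⟨r / 3, by omega⟩
    exact ⟨s ^ 2 + s, by ring⟩
  have e01 : ∀ r : ℤ, r % 3 ≠ 2 → ∃ t, r ^ 2 - r + 1 = 3 * t + 1 := by
    intro r hr
    have : r % 3 = 0 ∨ r % 3 = 1 := by omega
    rcases this with h | h
    · obtain ⟨s, rfl⟩ : ∃ s, r = 3 * s := ⟨r / 3, by omega⟩
      exact ⟨3 * s ^ 2 - s, by ring⟩
    · obtain ⟨s, rfl⟩ : ∃ s, r = 3 * s + 1 := ⟨r / 3, by omega⟩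
      exact ⟨3 * s ^ 2 + s, by ring⟩
  rcases Int.even_or_odd c with ⟨e, he⟩ | ⟨e, he⟩
  · -- `c = 2 e`
    rcases hg with hg | hg
    · by_cases h1 : e % 3 = 1
      · obtain ⟨t, ht⟩ := e01 (1 - e) (by omega)
        refine step' Q hP' (r := 1 - e) (n := 3) (by rw [hc, he]; ring) ?_
        rw [ht]
        omega
      · obtain ⟨t, ht⟩ := e01 (-e) (by omega)
        refine step' Q hP' (r := -e) (n := -3) (by rw [hc, he]; ring) ?_
        rw [neg_dvd]
        rw [ht]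
        omega
    · have h3 : e % 3 = 0 ∨ e % 3 = 1 ∨ e % 3 = 2 := by omega
      rcases h3 with h3 | h3 | h3
      · obtain ⟨t, ht⟩ := e2 (2 - e) (by omega)
        refine step' Q hP' (r := 2 - e) (n := 9) (by rw [hc, he]; ring) ?_
        rw [ht]
        omega
      · obtain ⟨t, ht⟩ := e2 (-e) (by omega)
        refine step' Q hP' (r := -e) (n := -3) (by rw [hc, he]; ring) ?_
        rw [neg_dvd]
        rw [ht]
        omega
      · obtain ⟨t, ht⟩ := e2 (1 - e) (by omega)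
        refine step' Q hP' (r := 1 - e) (n := 3) (by rw [hc, he]; ring) ?_
        rw [ht]
        omega
  · -- `c = 2 e + 1`
    have hf : Q.f u % 2 = 1 := by
      rcases hpar with h | h
      · omega
      · exact h
    rcases hg with hg | hg
    · by_cases h1 : e % 3 = 2
      · obtain ⟨t, ht⟩ := e01 (-1 - e) (by omega)
        obtain ⟨w, hw⟩ := sq_even (-1 - e)
        refine step' Q hP' (r := -1 - e) (n := -6) (by rw [hc, he]; ring) ?_
        rw [neg_dvd]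
        generalize (-1 - e) ^ 2 = z at *
        omega
      · obtain ⟨t, ht⟩ := e01 (1 - e) (by omega)
        obtain ⟨w, hw⟩ := sq_even (1 - e)
        refine step' Q hP' (r := 1 - e) (n := 6) (by rw [hc, he]; ring) ?_
        generalize (1 - e) ^ 2 = z at *
        omega
    · have h3 : e % 3 = 0 ∨ e % 3 = 1 ∨ e % 3 = 2 := by omega
      rcases h3 with h3 | h3 | h3
      · obtain ⟨t, ht⟩ := e2 (-1 - e) (by omega)
        obtain ⟨w, hw⟩ := sq_even (-1 - e)
        refine step' Q hP' (r := -1 - e) (n := -6) (by rw [hc, he]; ring) ?_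
        rw [neg_dvd]
        generalize (-1 - e) ^ 2 = z at *
        omega
      · obtain ⟨t, ht⟩ := e2 (3 - e) (by omega)
        obtain ⟨w, hw⟩ := sq_even (3 - e)
        refine step' Q hP' (r := 3 - e) (n := 18) (by rw [hc, he]; ring) ?_
        generalize (3 - e) ^ 2 = z at *
        omega
      · obtain ⟨t, ht⟩ := e2 (1 - e) (by omega)
        obtain ⟨w, hw⟩ := sq_even (1 - e)
        refine step' Q hP' (r := 1 - e) (n := 6) (by rw [hc, he]; ring) ?_
        generalize (1 - e) ^ 2 = z at *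
        omega

/-- the value nine (sextic del Pezzo surfaces) -/
theorem value_nine {P u : M} (hP : Q.f P = 9) (hc : 3 ∣ Q.b P u)
    (hg : Q.f u % 3 = 1 ∨ Q.f u % 9 = 3) :
    ∃ (v : M) (j : ℤ), Q.f v = j ^ 2 + j + 1 := by
  obtain ⟨c, hc⟩ := hc
  by_cases hpar : c % 2 = 0 ∨ Q.f u % 2 = 1
  · exact value_nine_aux Q hP hc hg hpar
  · have h2 : Q.f ((2 : ℤ) • u) = 4 * Q.f u := by rw [Q.f_smul]; norm_num
    refine value_nine_aux Q hP (u := (2 : ℤ) • u) (c := 2 * c) ?_ ?_ (Or.inl (by omega))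
    · rw [Q.b_smul', hc]
      ring
    · rw [h2]
      omega

end Pool.Agent.K9h38.CF
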